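import Pool.Agent.Helper42.DB.Goals2

/-! Packet CORE of MP_48f005_an (dispersing billiards). -/

set_option autoImplicit false

namespace Pool.Agent.Helper42.DB.PkCORE

open Set Filter Topology

variable {S : Sys}

/-- a point behind the arc is behind each tangent line of the arc -/
lemma behind (hA : G_ARC S) (i : S.ι) (u v s : ℝ) (hu : u ∈ Icc (S.a i) (S.b i))
    (hv : v ∈ Icc (S.a i) (S.b i)) (hs : 0 ≤ s) :
    dt (ee u) (S.g i v - s • ee v - S.g i u) ≤ 0 := by
  have h1 := (hA i).2.2.2 u hu (S.g i v) (subset_convexHull ℝ _ ⟨v, hv, rfl⟩)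
  have h0 : 0 ≤ S.κ * ‖S.g i u - S.g i v‖ ^ 2 := mul_nonneg (hA i).1.le (sq_nonneg _)
  have h2 : 0 ≤ Real.cos (v - u) := by
    have hpi := Real.pi_gt_three
    have ht := S.turn i
    apply Real.cos_nonneg_of_mem_Icc
    constructor
    · linarith [hu.2, hv.1]
    · linarith [hu.1, hv.2]
  have h3 : dt (ee u) (S.g i v - s • ee v - S.g i u) =
      -dt (ee u) (S.g i u - S.g i v) - s * Real.cos (v - u) := by
    rw [← dt_ee_ee]
    simp only [dt_sub_right, dt_smul_right]
    ring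
  rw [h3]
  have h4 := mul_nonneg hs h2
  linarith

/-- an arc point is not a limit of points outside `Y` which are in front of the arc -/
lemma front_contra (hA : G_ARC S) (i : S.ι) (u0 : ℝ) (hu0 : u0 ∈ Ioo (S.a i) (S.b i)) (A : Set ℂ)
    (hX : S.g i u0 ∈ closure A) (h1 : ∀ z ∈ A, z ∉ S.Y)
    (h2 : ∀ z ∈ A, ∃ u ∈ Icc (S.a i) (S.b i), 0 < dt (ee u) (z - S.g i u)) : False := by
  obtain ⟨ε, hε, hb⟩ := S.front i u0 hu0
  obtain ⟨z, hz, hd⟩ := Metric.mem_closure_iff.1 hX ε hε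
  rcases hb z (by rw [Metric.mem_ball, dist_comm]; exact hd) with h | ⟨v, hv, s, hs, hzs⟩
  · exact h1 z hz h
  · obtain ⟨u, hu, hpos⟩ := h2 z hz
    have h3 := behind hA i u v s hu hv hs
    rw [hzs] at hpos
    exact absurd hpos (not_lt.2 h3)

/-- a unit vector orthogonal to a given vector -/
lemma exists_orth (w : ℂ) : ∃ e : ℂ, ‖e‖ = 1 ∧ dt e w = 0 := by
  refine ⟨tt (Complex.arg w), norm_tt _, ?_⟩
  have h1 := Complex.norm_mul_cos_arg w
  have h2 := Complex.norm_mul_sin_arg w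
  simp only [dt, tt_re, tt_im]
  rw [← h1, ← h2]
  ring

theorem thm (S : Sys) : G_ARC S → G_CORE S := by
  intro hA j p q b θ T μ kk hpq hb hθ hT hμ hQ hkk hl hYp hYq hbase hc0
  obtain ⟨c0, hc0⟩ := hc0
  set Q := Swept p q b θ T with hQdef
  -- it suffices to prove `Q ⊆ Y`
  suffices hsub : Q ⊆ S.Y by
    intro l hlm t ht
    rcases hlm.1.eq_or_lt with h | h
    · subst h
      exact hYp t ht
    · rcases hlm.2.eq_or_lt with h' | h'
      · subst h'
        exact hYq t ht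
      · exact hsub ⟨l, ⟨h, h'⟩, t, ht, rfl⟩
  intro X0 hX0
  by_contra hX0Y
  set C := connectedComponentIn S.Yᶜ X0 with hCdef
  have hCpre : IsPreconnected C := isPreconnected_connectedComponentIn
  have hCsub : C ⊆ S.Yᶜ := connectedComponentIn_subset _ _
  have hX0C : X0 ∈ C := mem_connectedComponentIn hX0Y
  have hcoskk : ∀ x : ℝ, Real.cos (x + kk) = -Real.cos x := by
    intro x
    have hs : Real.sin kk = 0 := by
      have := Real.sin_sq_add_cos_sq kk
      rw [hkk] at this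
      have h2 : Real.sin kk ^ 2 = 0 := by linarith
      exact pow_eq_zero_iff (two_ne_zero) |>.1 h2
    rw [Real.cos_add, hkk, hs]
    ring
  -- points of `Q` are in front of the arc `j`
  have hfj : ∀ z ∈ Q, ∃ u ∈ Icc (S.a j) (S.b j), 0 < dt (ee u) (z - S.g j u) := by
    rintro z ⟨l, hlm, t, ht, rfl⟩
    obtain ⟨hT0, hμl, hg, hang⟩ := hl l (Ioo_subset_Icc_self hlm)
    refine ⟨μ l, Ioo_subset_Icc_self hμl, ?_⟩
    have h1 : b l + t • ee (θ l) - S.g j (μ l) = -((T l - t) • ee (θ l)) := by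
      rw [hg, sub_smul]
      ring
    rw [h1, dt_neg_right, dt_smul_right, dt_ee_ee]
    have h2 : 0 < Real.cos (θ l + kk - μ l) := by
      apply Real.cos_pos_of_mem_Ioo
      exact ⟨by linarith [(abs_lt.1 hang).1], (abs_lt.1 hang).2⟩
    have h3 : Real.cos (θ l + kk - μ l) = -Real.cos (θ l - μ l) := by
      rw [show θ l + kk - μ l = (θ l - μ l) + kk by ring, hcoskk]
    have h4 : 0 < T l - t := by linarith [ht.2]
    have h5 := mul_pos h4 h2
    rw [h3] at h5
    linarith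
  -- step 1
  have step1 : closure (C ∩ Q) ∩ C ⊆ Q := by
    rintro X ⟨hXcl, hXC⟩
    have hXY : X ∉ S.Y := hCsub hXC
    have hK : IsCompact ((fun x : ℝ × ℝ => b x.1 + (x.2 * T x.1) • ee (θ x.1)) ''
        (Icc p q ×ˢ Icc (0 : ℝ) 1)) := by
      apply (isCompact_Icc.prod isCompact_Icc).image_of_continuousOn
      have hfst : ContinuousOn (Prod.fst : ℝ × ℝ → ℝ) (Icc p q ×ˢ Icc (0 : ℝ) 1) :=
        continuousOn_fst
      have hmaps : MapsTo (Prod.fst : ℝ × ℝ → ℝ) (Icc p q ×ˢ Icc (0 : ℝ) 1) (Icc p q) :=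
        fun x hx => hx.1
      have hb' := hb.comp hfst hmaps
      have hT' := hT.comp hfst hmaps
      have hθ' := continuous_ee.comp_continuousOn (hθ.comp hfst hmaps)
      exact hb'.add ((continuousOn_snd.mul hT').smul hθ')
    have hQK : C ∩ Q ⊆ (fun x : ℝ × ℝ => b x.1 + (x.2 * T x.1) • ee (θ x.1)) ''
        (Icc p q ×ˢ Icc (0 : ℝ) 1) := by
      rintro z ⟨_, l, hlm, t, ht, rfl⟩
      have hT0 : 0 < T l := (hl l (Ioo_subset_Icc_self hlm)).1
      refine ⟨(l, t / T l), ⟨Ioo_subset_Icc_self hlm, ?_, ?_⟩, ?_⟩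
      · exact div_nonneg ht.1.le hT0.le
      · exact (div_le_one hT0).2 ht.2.le
      · show b l + (t / T l * T l) • ee (θ l) = _
        rw [div_mul_cancel₀ t hT0.ne']
    obtain ⟨⟨l, s⟩, ⟨hlm, hs0, hs1⟩, hX⟩ := closure_minimal hQK hK.isClosed hXcl
    simp only at hlm hs0 hs1 hX
    obtain ⟨hT0, hμl, hg, hang⟩ := hl l hlm
    rcases hs0.eq_or_lt with h0 | h0
    · -- `s = 0`
      exfalso
      rw [← h0, zero_mul, zero_smul, add_zero] at hX
      rcases hbase with hbY | ⟨i, ν, hν⟩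
      · exact hXY (hX ▸ hbY l hlm)
      · obtain ⟨h1, h2, h3⟩ := hν l hlm
        rw [h2] at hX
        refine front_contra hA i (ν l) h1 (C ∩ Q) (by rw [hX]; exact hXcl)
          (fun z hz => hCsub hz.1) ?_
        rintro z ⟨_, l', hlm', t', ht', rfl⟩
        obtain ⟨h1', h2', h3'⟩ := hν l' (Ioo_subset_Icc_self hlm')
        refine ⟨ν l', Ioo_subset_Icc_self h1', ?_⟩
        have h4 : b l' + t' • ee (θ l') - S.g i (ν l') = t' • ee (θ l') := by
          rw [h2']
          ring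
        rw [h4, dt_smul_right, dt_ee_ee]
        apply mul_pos ht'.1
        apply Real.cos_pos_of_mem_Ioo
        exact ⟨by linarith [(abs_lt.1 h3').1], (abs_lt.1 h3').2⟩
    · rcases hs1.eq_or_lt with h1 | h1
      · -- `s = 1`
        exfalso
        rw [h1, one_mul, ← hg] at hX
        exact front_contra hA j (μ l) hμl (C ∩ Q) (by rw [hX]; exact hXcl)
          (fun z hz => hCsub hz.1) (fun z hz => hfj z hz.2)
      · have ht : s * T l ∈ Ioo 0 (T l) :=
          ⟨mul_pos h0 hT0, by nlinarith⟩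
        rcases hlm.1.eq_or_lt with h | h
        · exfalso
          subst h
          exact hXY (hX ▸ hYp _ ht)
        · rcases hlm.2.eq_or_lt with h' | h'
          · exfalso
            subst h'
            exact hXY (hX ▸ hYq _ ht)
          · exact ⟨l, ⟨h, h'⟩, _, ht, hX.symm⟩
  -- step 2
  have step2 : C ⊆ Q := by
    by_contra hcon
    have h1 : (C ∩ (closure (C ∩ Q))ᶜ).Nonempty := by
      obtain ⟨x, hx, hxQ⟩ := Set.not_subset.1 hcon
      exact ⟨x, hx, fun hcl => hxQ (step1 ⟨hcl, hx⟩)⟩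
    have h2 : C ⊆ Q ∪ (closure (C ∩ Q))ᶜ := by
      intro x hx
      by_cases hcl : x ∈ closure (C ∩ Q)
      · exact Or.inl (step1 ⟨hcl, hx⟩)
      · exact Or.inr hcl
    obtain ⟨x, hxC, hxQ, hxn⟩ := hCpre Q (closure (C ∩ Q))ᶜ hQ isClosed_closure.isOpen_compl h2
      ⟨X0, hX0C, hX0⟩ h1
    exact hxn (subset_closure ⟨hxC, hxQ⟩)
  -- step 3
  obtain ⟨z0, hz0⟩ := S.big X0 hX0Y
  have hpmem : p ∈ Icc p q := ⟨le_rfl, hpq.le⟩
  obtain ⟨_, hμp, _, _⟩ := hl p hpmem
  obtain ⟨e, he, heo⟩ := exists_orth (S.g j (μ p) - c0)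
  have hρ := S.ρ_pos
  have hbound : ∀ z ∈ Q, |dt e (z - c0)| ≤ S.ρ / 2 := by
    rintro z ⟨l, hlm, t, ht, rfl⟩
    obtain ⟨hT0, hμl, hg, _⟩ := hl l (Ioo_subset_Icc_self hlm)
    have h1 : |dt e (b l - c0)| ≤ S.ρ / 2 := by
      refine (abs_dt_le _ _).trans ?_
      rw [he, one_mul, ← dist_eq_norm]
      exact hc0 l (Ioo_subset_Icc_self hlm)
    have h2 : |dt e (S.g j (μ l) - c0)| ≤ S.ρ / 2 := by
      have h3 : dt e (S.g j (μ l) - c0) = dt e (S.g j (μ l) - S.g j (μ p)) := by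
        have h4 : S.g j (μ l) - c0 = (S.g j (μ l) - S.g j (μ p)) + (S.g j (μ p) - c0) := by ring
        rw [h4, dt_add_right, heo, add_zero]
      rw [h3]
      refine (abs_dt_le _ _).trans ?_
      rw [he, one_mul, ← dist_eq_norm]
      have h5 := S.small j (μ l) (Ioo_subset_Icc_self hμl) (μ p) (Ioo_subset_Icc_self hμp)
      linarith
    have hconv : dt e (b l + t • ee (θ l) - c0) =
        (1 - t / T l) * dt e (b l - c0) + t / T l * dt e (S.g j (μ l) - c0) := by
      rw [hg]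
      simp only [dt_sub_right, dt_add_right, dt_smul_right]
      field_simp
      ring
    have hs0 : 0 ≤ t / T l := div_nonneg ht.1.le hT0.le
    have hs1 : t / T l ≤ 1 := (div_le_one hT0).2 ht.2.le
    rw [hconv]
    rw [abs_le] at h1 h2 ⊢
    constructor
    · nlinarith [h1.1, h2.1]
    · nlinarith [h1.2, h2.2]
  have hmem1 : z0 + S.ρ • e ∈ Q := by
    apply step2
    apply hz0
    rw [Metric.mem_closedBall, dist_eq_norm, add_sub_cancel_left, norm_smul, he, mul_one,
      Real.norm_eq_abs, abs_of_pos hρ]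
  have hmem2 : z0 - S.ρ • e ∈ Q := by
    apply step2
    apply hz0
    rw [Metric.mem_closedBall, dist_eq_norm, sub_sub_cancel_left, norm_neg, norm_smul, he, mul_one,
      Real.norm_eq_abs, abs_of_pos hρ]
  have hb1 := abs_le.1 (hbound _ hmem1)
  have hb2 := abs_le.1 (hbound _ hmem2)
  have hee : dt e e = 1 := by rw [dt_self, he]; norm_num
  have hd1 : dt e (z0 + S.ρ • e - c0) = dt e (z0 - c0) + S.ρ := by
    simp only [dt_sub_right, dt_add_right, dt_smul_right, hee]
    ring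
  have hd2 : dt e (z0 - S.ρ • e - c0) = dt e (z0 - c0) - S.ρ := by
    simp only [dt_sub_right, dt_smul_right, hee]
    ring
  rw [hd1] at hb1
  rw [hd2] at hb2
  linarith [hb1.2, hb2.1]

end Pool.Agent.Helper42.DB.PkCORE
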