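import Pool.Agent.Helper42.DB.Goals2

/-! Packet CROSS of MP_48f005_an (dispersing billiards). -/

set_option autoImplicit false

namespace Pool.Agent.Helper42.DB.PkCROSS

open Set Filter Topology

variable {S : Sys}

lemma cr_pos (hC : G_CRV) (c : Crv) (hR : ∀ u, 0 < c.R u) (θ u v : ℝ) (huv : u < v)
    (h1 : -(Real.pi / 2) < u - θ) (h2 : v - θ < Real.pi / 2) :
    0 < cr (ee θ) (c.G v - c.G u) := by
  rw [(hC c θ u v).1]
  apply intervalIntegral.intervalIntegral_pos_of_pos_on _ _ huv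
  · apply Continuous.intervalIntegrable
    exact c.cont.mul (Real.continuous_cos.comp (continuous_id.sub continuous_const))
  · intro t ht
    apply mul_pos (hR t)
    apply Real.cos_pos_of_mem_Ioo
    exact ⟨by linarith [ht.1], by linarith [ht.2]⟩

lemma mem_os (P e : ℂ) (a L : ℝ) (ha : 0 < a) (hL : a < L) :
    P + a • e ∈ openSegment ℝ P (P + L • e) := by
  have hL0 : 0 < L := ha.trans hL
  refine ⟨1 - a / L, a / L, ?_, div_pos ha hL0, by ring, ?_⟩
  · have : a / L < 1 := (div_lt_one hL0).2 hL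
    linarith
  · rw [smul_add, smul_smul, div_mul_cancel₀ a hL0.ne', ← add_assoc, ← add_smul]
    rw [sub_add_cancel, one_smul]

lemma cramer (e e' w : ℂ) : cr e e' • w = cr w e' • e + cr e w • e' := by
  apply Complex.ext
  · simp only [Complex.add_re, Complex.smul_re, smul_eq_mul, cr]
    ring
  · simp only [Complex.add_im, Complex.smul_im, smul_eq_mul, cr]
    ring

theorem thm (S : Sys) : G_CRV → G_FLB S → G_LIFT S → G_CROSS S := by
  intro hC hF hL x y x' y' hxy hxy' hi hj hu hth hμ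
  have hne : x.i ≠ y.i := hF.1 x y hxy
  obtain ⟨η, c, kk, hkk, _, _, _, _, hlift⟩ := hL x.i y.i hne
  obtain ⟨hθη, hbk⟩ := hlift x y hxy rfl rfl
  obtain ⟨hθη', hbk'⟩ := hlift x' y' hxy' hi.symm hj.symm
  have hR : ∀ i u, 0 < (S.crv i).R u := fun i u => lt_of_lt_of_le S.r0_pos (S.le_R i u)
  have hpos' : x'.pos = S.g x.i x'.u := by rw [hi]; rfl
  have hposy' : y'.pos = S.g y.i y'.u := by rw [hj]; rfl
  obtain ⟨hxok, hyok, hee, L, hL0, hyp, _⟩ := hxy
  obtain ⟨hxok', hyok', hee', L', hL0', hyp', _⟩ := hxy'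
  have e1 := abs_lt.1 hxok.2
  have e2 := abs_lt.1 hyok.2
  have e3 := abs_lt.1 hxok'.2
  have e4 := abs_lt.1 hyok'.2
  have dth : x.th = x.u + x.φ := rfl
  have dth' : x'.th = x'.u + x'.φ := rfl
  have dbk : y.bk = y.u - y.φ := rfl
  have dbk' : y'.bk = y'.u - y'.φ := rfl
  have h1 : 0 < cr (ee x.th) (x.pos - x'.pos) := by
    rw [hpos']
    exact cr_pos hC (S.crv x.i) (hR x.i) x.th x'.u x.u hu (by linarith [e3.2]) (by linarith [e1.1])
  have h3 : 0 < cr (ee x'.th) (x.pos - x'.pos) := by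
    rw [hpos']
    exact cr_pos hC (S.crv x.i) (hR x.i) x'.th x'.u x.u hu (by linarith [e3.2]) (by linarith [e1.1])
  have h2 : 0 < cr (ee y.bk) (y.pos - y'.pos) := by
    rw [hposy']
    exact cr_pos hC (S.crv y.i) (hR y.i) y.bk y'.u y.u hμ (by linarith [e4.1]) (by linarith [e2.2])
  have h4 : 0 < cr (ee y'.bk) (y.pos - y'.pos) := by
    rw [hposy']
    exact cr_pos hC (S.crv y.i) (hR y.i) y'.bk y'.u y.u hμ (by linarith [e4.1]) (by linarith [e2.2])
  have hb1 : ee y.bk = -ee x.th := by rw [hee, neg_neg]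
  have hb2 : ee y'.bk = -ee x'.th := by rw [hee', neg_neg]
  rw [hb1, hyp, hyp', cr_neg_left] at h2
  rw [hb2, hyp, hyp', cr_neg_left] at h4
  simp only [cr_sub_right, cr_add_right, cr_smul_right, cr_self, mul_zero, add_zero] at h1 h2 h3 h4
  set D := cr (ee x.th) (ee x'.th) with hD
  set A := cr (ee x.th) x.pos - cr (ee x.th) x'.pos with hA
  set B := cr (ee x'.th) x.pos - cr (ee x'.th) x'.pos with hB
  have hD' : cr (ee x'.th) (ee x.th) = -D := by rw [cr_anti]
  rw [hD'] at h4
  have h5 : A < L' * D := by linarith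
  have h6 : B < L * D := by linarith
  have hDpos : 0 < D := by
    by_contra hcon
    have : L * D ≤ 0 := mul_nonpos_of_nonneg_of_nonpos hL0.le (not_lt.1 hcon)
    linarith
  have hX : x.pos + (B / D) • ee x.th = x'.pos + (A / D) • ee x'.th := by
    have h7 := cramer (ee x.th) (ee x'.th) (x.pos - x'.pos)
    have h8 : cr (x.pos - x'.pos) (ee x'.th) = -B := by
      rw [cr_anti, cr_sub_right]
    have h9 : cr (ee x.th) (x.pos - x'.pos) = A := by rw [cr_sub_right]
    rw [h8, h9, ← hD] at h7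
    have h10 : x.pos - x'.pos = (-(B / D)) • ee x.th + (A / D) • ee x'.th := by
      have h11 : x.pos - x'.pos = D⁻¹ • (D • (x.pos - x'.pos)) := by
        rw [smul_smul, inv_mul_cancel₀ hDpos.ne', one_smul]
      rw [h11, h7, smul_add, smul_smul, smul_smul]
      congr 2
      · ring
      · ring
    have h12 : x.pos = x'.pos + ((-(B / D)) • ee x.th + (A / D) • ee x'.th) := by
      rw [← h10]; ring
    rw [neg_smul] at h12
    calc x.pos + (B / D) • ee x.th
        = (x'.pos + (-((B / D) • ee x.th) + (A / D) • ee x'.th)) + (B / D) • ee x.th := by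
          rw [← h12]
      _ = x'.pos + (A / D) • ee x'.th := by ring
  refine ⟨x.pos + (B / D) • ee x.th, ?_, ?_⟩
  · rw [hyp]
    exact mem_os _ _ _ _ (div_pos h3 hDpos) ((div_lt_iff₀ hDpos).2 h6)
  · rw [hX, hyp']
    exact mem_os _ _ _ _ (div_pos h1 hDpos) ((div_lt_iff₀ hDpos).2 h5)

end Pool.Agent.Helper42.DB.PkCROSS
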